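import Mathlib

/-!
# MP_bd2bbd_co: a monotone diameter-2 path system that is not strictly metric

On seven vertices take the two-edge paths
`1-2-6, 1-4-7, 2-3-4, 2-5-7, 3-1-5, 3-6-7` and the edge `uv` for every other pair. Together the
six paths use the same twelve edges (once each) as the six competing paths
`1-3-6, 1-5-7, 2-1-4, 2-6-7, 3-2-5, 3-4-7`, so they cannot all be strictly shorter.
Below the vertices are `0, …, 6`.
-/

open SimpleGraph

namespace Pool.Agent.Results.MP_bd2bbd_co.SevenVertices

/-- A path system on `[n]`: for all `u`, `v` a simple path of the complete graph with endpoints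
`u` and `v`; the path chosen for `(v,u)` is the one chosen for `(u,v)`, reversed. (For `u = v`
it is the trivial path.) -/
structure PathSystem (n : ℕ) where
  P : ∀ u v : Fin n, (⊤ : SimpleGraph (Fin n)).Walk u v
  isPath : ∀ u v, (P u v).IsPath
  symm : ∀ u v, P v u = (P u v).reverse

/-- Consistency: if `a` lies on `P u v` then `P u v` is the concatenation of `P u a`, `P a v`. -/
def PathSystem.Consistent {n : ℕ} (S : PathSystem n) : Prop :=
  ∀ u v a : Fin n, a ∈ (S.P u v).support → S.P u v = (S.P u a).append (S.P a v)

/-- The largest number of edges of a path of the system is `2`. -/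
def PathSystem.HasDiameterTwo {n : ℕ} (S : PathSystem n) : Prop :=
  (∀ u v, (S.P u v).length ≤ 2) ∧ ∃ u v, (S.P u v).length = 2

/-- `{u,v}` is in the domain of the résumé `f`, and `f(u,v) = z`: the path is `u z v`. -/
def PathSystem.Resume {n : ℕ} (S : PathSystem n) (u v z : Fin n) : Prop :=
  (S.P u v).support = [u, z, v]

/-- Monotonicity: `f(i,j) ≤ f(i,k)` whenever `{i,j}, {i,k} ∈ dom f` and `j ≤ k`. -/
def PathSystem.Monotone {n : ℕ} (S : PathSystem n) : Prop :=
  ∀ i j k x y : Fin n, j ≤ k → S.Resume i j x → S.Resume i k y → x ≤ y

/-- total weight of a walk -/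
def weight {n : ℕ} (w : Sym2 (Fin n) → ℝ) {u v : Fin n}
    (p : (⊤ : SimpleGraph (Fin n)).Walk u v) : ℝ := (p.edges.map w).sum

/-- Strictly metric: for some positive weights on the edges of the complete graph every path of
the system is the unique path of minimum total weight between its endpoints. -/
def PathSystem.StrictlyMetric {n : ℕ} (S : PathSystem n) : Prop :=
  ∃ w : Sym2 (Fin n) → ℝ, (∀ e ∈ (⊤ : SimpleGraph (Fin n)).edgeSet, 0 < w e) ∧
    ∀ (u v : Fin n) (q : (⊤ : SimpleGraph (Fin n)).Walk u v), q.IsPath → q ≠ S.P u v →
      weight w (S.P u v) < weight w q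

/-- the interior vertices -/
def mid : Fin 7 → Fin 7 → Option (Fin 7) :=
  ![![none, none, none, none, none, some 1, some 3],
    ![none, none, none, some 2, none, none, some 4],
    ![none, none, none, none, some 0, none, some 5],
    ![none, some 2, none, none, none, none, none],
    ![none, none, some 0, none, none, none, none],
    ![some 1, none, none, none, none, none, none],
    ![some 3, some 4, some 5, none, none, none, none]]

/-- vertex lists of the paths -/
def L (u v : Fin 7) : List (Fin 7) :=
  if u = v then [u] else
    match mid u v with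
    | none => [u, v]
    | some z => if u ≠ z ∧ z ≠ v then [u, z, v] else [u, v]

/-- the paths -/
def Q (u v : Fin 7) : (⊤ : SimpleGraph (Fin 7)).Walk u v :=
  if h : u = v then (Walk.nil : (⊤ : SimpleGraph (Fin 7)).Walk u u).copy rfl h else
    match mid u v with
    | none => Walk.cons ((top_adj u v).2 h) Walk.nil
    | some z => if hz : u ≠ z ∧ z ≠ v then
        Walk.cons ((top_adj u z).2 hz.1) (Walk.cons ((top_adj z v).2 hz.2) Walk.nil)
      else Walk.cons ((top_adj u v).2 h) Walk.nil

lemma support_Q (u v : Fin 7) : (Q u v).support = L u v := by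
  unfold Q L
  split_ifs with h
  · subst h; simp
  · cases mid u v with
    | none => simp
    | some z =>
      simp only
      split_ifs with hz
      · simp
      · simp

/-- the path system -/
def S : PathSystem 7 where
  P := Q
  isPath u v := by
    rw [Walk.isPath_def, support_Q]
    revert u v; decide +kernel
  symm u v := by
    apply Walk.ext_support
    rw [Walk.support_reverse, support_Q, support_Q]
    revert u v; decide +kernel

lemma S_P (u v : Fin 7) : S.P u v = Q u v := rfl

lemma lt_of (w : Sym2 (Fin 7) → ℝ)
    (h : ∀ (u v : Fin 7) (q : (⊤ : SimpleGraph (Fin 7)).Walk u v), q.IsPath → q ≠ S.P u v →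
      weight w (S.P u v) < weight w q)
    (u v z y : Fin 7) (hm : L u v = [u, z, v]) (h1 : u ≠ z) (h2 : z ≠ v) (h3 : u ≠ y)
    (h4 : y ≠ v) (h5 : u ≠ v) (h6 : z ≠ y) :
    w s(u, z) + w s(z, v) < w s(u, y) + w s(y, v) := by
  have e : S.P u v =
      Walk.cons ((top_adj u z).2 h1) (Walk.cons ((top_adj z v).2 h2) Walk.nil) := by
    apply Walk.ext_support
    rw [S_P, support_Q, hm]
    simp
  have := h u v (Walk.cons ((top_adj u y).2 h3) (Walk.cons ((top_adj y v).2 h4) Walk.nil))
    (by
      rw [Walk.isPath_def]
      simp [h3, h4, h5])
    (by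
      rw [e]
      intro h
      have := congrArg Walk.support h
      simp at this
      exact h6 this.symm)
  rw [e] at this
  simpa [weight] using this

/-- Q1 is false: on `7` vertices there is a monotone consistent path system of diameter `2`
which is not strictly metric. -/
theorem result :
    ∃ S : PathSystem 7, S.Consistent ∧ S.HasDiameterTwo ∧ S.Monotone ∧ ¬ S.StrictlyMetric := by
  refine ⟨S, ?_, ⟨?_, ?_⟩, ?_, ?_⟩
  · intro u v a ha
    apply Walk.ext_support
    rw [Walk.support_append]
    rw [S_P, support_Q] at ha ⊢
    rw [S_P, S_P, support_Q, support_Q]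
    revert u v a; decide +kernel
  · intro u v
    have h := Walk.length_support (S.P u v)
    rw [S_P, support_Q] at h
    have : ∀ u v, (L u v).length ≤ 3 := by decide +kernel
    have := this u v
    rw [S_P]
    omega
  · refine ⟨0, 5, ?_⟩
    have h := Walk.length_support (S.P 0 5)
    rw [S_P, support_Q] at h
    have : (L 0 5).length = 3 := by decide +kernel
    rw [S_P]
    omega
  · have key : ∀ i j k x y : Fin 7, j ≤ k → L i j = [i, x, j] → L i k = [i, y, k] → x ≤ y := by
      decide +kernel
    intro i j k x y hjk h1 h2
    unfold PathSystem.Resume at h1 h2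
    rw [S_P, support_Q] at h1 h2
    exact key i j k x y hjk h1 h2
  · rintro ⟨w, _, h⟩
    have h1 := lt_of w h 0 5 1 2 (by decide +kernel) (by decide) (by decide) (by decide)
      (by decide) (by decide) (by decide)
    have h2 := lt_of w h 0 6 3 4 (by decide +kernel) (by decide) (by decide) (by decide)
      (by decide) (by decide) (by decide)
    have h3 := lt_of w h 1 3 2 0 (by decide +kernel) (by decide) (by decide) (by decide)
      (by decide) (by decide) (by decide)
    have h4 := lt_of w h 1 6 4 5 (by decide +kernel) (by decide) (by decide) (by decide)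
      (by decide) (by decide) (by decide)
    have h5 := lt_of w h 2 4 0 1 (by decide +kernel) (by decide) (by decide) (by decide)
      (by decide) (by decide) (by decide)
    have h6 := lt_of w h 2 6 5 3 (by decide +kernel) (by decide) (by decide) (by decide)
      (by decide) (by decide) (by decide)
    rw [Sym2.eq_swap (a := 2) (b := 0)] at h5
    rw [Sym2.eq_swap (a := 1) (b := 0)] at h3
    rw [Sym2.eq_swap (a := 2) (b := 1)] at h5
    linarith

end Pool.Agent.Results.MP_bd2bbd_co.SevenVertices
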